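import Pool.Agent.Lib.MP_971469_al.W2_Main

namespace Pool.Agent.Results.MP_971469_al.NoUniformBound

open Pool.Agent.MP971469

/-- Q1 is false: for every `ε > 0` there is a nonabelian finite simple group `G` with
`γ_u(G) = 2` and `0 < P_2(G) < ε`. -/
theorem result : ∀ ε : ℝ, 0 < ε →
    ∃ (G : Type) (_ : Group G) (_ : Finite G), IsSimpleGroup G ∧ (¬ ∀ a b : G, a * b = b * a) ∧
      gammaU G = 2 ∧ 0 < Pmax G 2 ∧ Pmax G 2 < ε :=
  fun ε hε => main_theorem ε hε

end Pool.Agent.Results.MP_971469_al.NoUniformBound
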